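import Pool.Agent.W293.EG.Finl

/-!
Project EG (helper78): lower bound for the logarithmic weights, and output lemmas.
-/

set_option autoImplicit false

namespace Pool.Agent.W78.EG

open Finset Filter ArithmeticFunction

variable {t c : ℤ}

/-- `∑_{m ≤ N, m ≡ u mod q} w(m) ≥ c₁ log N` -/
theorem finlow {f : ℕ} {χ : DirichletCharacter ℂ f} (hF : Fd t c f χ) (h2 : S_LOWQ t c)
    (h3 : S_SCNT t c) (a b e : ℤ) (ha : 0 < a) (hdisc : b ^ 2 - 4 * a * e = t ^ 2 - 4 * c)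
    (q u : ℕ) (hq : 1 ≤ q) : ∃ c₁ : ℝ, 0 < c₁ ∧ ∃ N₀ : ℕ, ∀ N : ℕ, N₀ ≤ N →
      c₁ * Real.log N ≤ ∑ m ∈ (Icc 1 N).filter (fun m => m ≡ u [MOD q]), wq a b e m := by
  classical
  have hd : 0 < 4 * a * e - b ^ 2 := by
    have h4 := hF.disc
    have h5 : (3 : ℤ) ≤ f := by exact_mod_cast hF.three
    linarith
  obtain ⟨C5, hC5, hcard, hcomp⟩ := Pool.Agent.W293.EG.compare hF.tt h3 ha hdisc hd q u
  obtain ⟨c₂, hc₂, hlow⟩ := Pool.Agent.W293.EG.low h2 ha hdisc hq u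
  obtain ⟨N₀, hN₀⟩ := eventually_atTop.1 ((hlow C5).and (eventually_ge_atTop 1))
  refine ⟨c₂, hc₂, N₀, fun N hN => ?_⟩
  obtain ⟨g1, g2⟩ := hN₀ N hN
  have h := (abs_le.1 (hcomp (fun _ => 1) (fun _ => by simp) N g2)).1
  have h4 : ∑ m ∈ (Icc 1 N).filter (fun m => m ≡ u [MOD q]), ∑ d ∈ Nat.divisors (qv a b e m),
      (fun _ : ℕ × ℕ => (1 : ℝ)) (d, qv a b e m / d) *
        Pool.Agent.W293.EG.wt (d, qv a b e m / d) =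
      ∑ m ∈ (Icc 1 N).filter (fun m => m ≡ u [MOD q]), wq a b e m := by
    refine sum_congr rfl fun m _ => ?_
    unfold wq
    refine sum_congr rfl fun d _ => ?_
    rw [one_mul]
    rfl
  rw [h4] at h
  linarith

open scoped Classical in
/-- the pairs, with `Q p` in place of `d d' = f(m)`, `m ≡ u mod q` -/
noncomputable def PG (Q : ℕ × ℕ → Prop) (s₁ s₂ s₃ s₄ : ℝ) (X : ℕ) : Finset (ℕ × ℕ) :=
  ((Icc 1 ⌊s₂ * X⌋₊) ×ˢ (Icc 1 ⌊s₄ * X⌋₊)).filter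
    (fun p => s₁ * X < (p.1 : ℝ) ∧ s₃ * X < (p.2 : ℝ) ∧ Q p)

open scoped Classical in
/-- the lower bound -/
def Low (Q : ℕ × ℕ → Prop) : Prop := ∃ c₁ : ℝ, 0 < c₁ ∧ ∃ X₀ : ℕ, ∀ X : ℕ, X₀ ≤ X →
  c₁ * X ≤ ((PG Q 0 1 0 1 X).card : ℝ)

/-- equidistribution at almost all scales -/
def Equ (Q : ℕ × ℕ → Prop) (k q : ℕ) : Prop :=
  ∀ (r i j : ℕ) (s₁ s₂ s₃ s₄ : ℝ), 0 ≤ s₁ → s₁ < s₂ → 0 ≤ s₃ → s₃ < s₄ → ∀ ε : ℝ, 0 < ε →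
    Tendsto (fun N : ℕ => (∑ X ∈ (Icc 1 N).filter (fun X : ℕ => ε * X <
      |(((PG Q s₁ s₂ s₃ s₄ X).filter (fun p => p.1 ≡ r [MOD q] ∧
          cardFactors p.1 ≡ i [MOD k] ∧ cardFactors p.2 ≡ j [MOD k])).card : ℝ) -
        1 / (k : ℝ) ^ 2 * (((PG Q s₁ s₂ s₃ s₄ X).filter (fun p => p.1 ≡ r [MOD q])).card : ℝ)|),
      1 / (X : ℝ)) / Real.log N) atTop (nhds 0)

theorem low_out (h2 : S_LOWQ t c) {a b e : ℤ} (ha : 0 < a)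
    (hdisc : b ^ 2 - 4 * a * e = t ^ 2 - 4 * c) {q u : ℕ} (hq : 1 ≤ q) (Q : ℕ × ℕ → Prop)
    (hQ : ∀ p : ℕ × ℕ, Q p ↔ ∃ m : ℕ, (p.1 * p.2 : ℤ) = a * (m : ℤ) ^ 2 + b * m + e ∧
      m ≡ u [MOD q]) : Low Q := by
  classical
  obtain ⟨c₁, hc₁, X₀, h⟩ := h2 a b e ha hdisc q u hq
  refine ⟨c₁, hc₁, X₀, fun X hX => (h X hX).trans (le_of_eq ?_)⟩
  congr 2
  ext p
  unfold PG
  rw [one_mul, Nat.floor_natCast, mem_filter, mem_filter, mem_product, mem_Icc, mem_Icc, hQ]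
  constructor
  · rintro ⟨⟨⟨h1, h2⟩, h3, h4⟩, h5⟩
    refine ⟨⟨⟨h1, h2⟩, h3, h4⟩, ?_, ?_, h5⟩
    · rw [zero_mul]
      exact_mod_cast h1
    · rw [zero_mul]
      exact_mod_cast h3
  · rintro ⟨⟨⟨h1, h2⟩, h3, h4⟩, -, -, h5⟩
    exact ⟨⟨⟨h1, h2⟩, h3, h4⟩, h5⟩

theorem equ_out (h : S_FINQ t c) {a b e : ℤ} (ha : 0 < a)
    (hdisc : b ^ 2 - 4 * a * e = t ^ 2 - 4 * c) {k q u : ℕ} (hk : 1 ≤ k) (hq : 1 ≤ q)
    (Q : ℕ × ℕ → Prop)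
    (hQ : ∀ p : ℕ × ℕ, Q p ↔ ∃ m : ℕ, (p.1 * p.2 : ℤ) = a * (m : ℤ) ^ 2 + b * m + e ∧
      m ≡ u [MOD q]) : Equ Q k q := by
  classical
  intro r i j s₁ s₂ s₃ s₄ h1 h2 h3 h4 ε hε
  have h5 := h a b e ha hdisc k hk q u r hq i j s₁ s₂ s₃ s₄ h1 h2 h3 h4 ε hε
  have h6 : ∀ X : ℕ, (PG Q s₁ s₂ s₃ s₄ X).filter (fun p => p.1 ≡ r [MOD q]) =
      SV a b e q u r s₁ s₂ s₃ s₄ X := by
    intro X
    ext p
    unfold PG SV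
    rw [mem_filter, mem_filter, mem_filter, hQ]
    constructor
    · rintro ⟨⟨h7, h8, h9, m, h10, h11⟩, h12⟩
      exact ⟨h7, h8, h9, m, h10, h11, h12⟩
    · rintro ⟨h7, h8, h9, m, h10, h11, h12⟩
      exact ⟨⟨h7, h8, h9, m, h10, h11⟩, h12⟩
  have h7 : ∀ X : ℕ, devV a b e k q u r i j s₁ s₂ s₃ s₄ X =
      |(((PG Q s₁ s₂ s₃ s₄ X).filter (fun p => p.1 ≡ r [MOD q] ∧
          cardFactors p.1 ≡ i [MOD k] ∧ cardFactors p.2 ≡ j [MOD k])).card : ℝ) -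
        1 / (k : ℝ) ^ 2 * (((PG Q s₁ s₂ s₃ s₄ X).filter
          (fun p => p.1 ≡ r [MOD q])).card : ℝ)| := by
    intro X
    unfold devV
    rw [← h6, filter_filter]
  simp only [h7] at h5
  exact h5

end Pool.Agent.W78.EG
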