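import Pool.Agent.W251.EG.All
import Pool.Agent.W78.EG.Inst4
import Pool.Agent.W78.EG.Out

/-!
Project EG (helper78): the theorems for the nine discriminants.
-/

set_option autoImplicit false

namespace Pool.Agent.W78.EG

open Finset Filter

/-- lower bound and equidistribution for all positive quadratic polynomials of the nine
discriminants -/
theorem fin9 {a b e : ℤ} (ha : 0 < a) (hD : b ^ 2 - 4 * a * e ∈ disc9) {k q u : ℕ} (hk : 1 ≤ k)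
    (hq : 1 ≤ q) (Q : ℕ × ℕ → Prop)
    (hQ : ∀ p : ℕ × ℕ, Q p ↔ ∃ m : ℕ, (p.1 * p.2 : ℤ) = a * (m : ℤ) ^ 2 + b * m + e ∧
      m ≡ u [MOD q]) : Low Q ∧ Equ Q k q := by
  obtain ⟨t, c, hdisc, htc⟩ := disc_mem hD
  obtain ⟨f, χ, hF⟩ := fd9 t c htc
  exact ⟨low_out (Pool.Agent.W251.EG.lowqG hF) ha hdisc hq Q hQ,
    equ_out (Pool.Agent.W251.EG.finqG hF) ha hdisc hk hq Q hQ⟩

/-- logarithmic weights -/
theorem finl9 {a b e : ℤ} (ha : 0 < a) (hD : b ^ 2 - 4 * a * e ∈ disc9) {k q u : ℕ} (hk : 1 ≤ k)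
    (hq : 1 ≤ q) :
    (∀ j : ℕ, Tendsto (fun N : ℕ => (∑ m ∈ (Icc 1 N).filter (fun m => m ≡ u [MOD q] ∧
      ArithmeticFunction.cardFactors (qv a b e m) ≡ j [MOD k]), wq a b e m) /
      ∑ m ∈ (Icc 1 N).filter (fun m => m ≡ u [MOD q]), wq a b e m) atTop (nhds (1 / (k : ℝ)))) ∧
    ∃ c₁ : ℝ, 0 < c₁ ∧ ∃ N₀ : ℕ, ∀ N : ℕ, N₀ ≤ N →
      c₁ * Real.log N ≤ ∑ m ∈ (Icc 1 N).filter (fun m => m ≡ u [MOD q]), wq a b e m := by
  obtain ⟨t, c, hdisc, htc⟩ := disc_mem hD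
  obtain ⟨f, χ, hF⟩ := fd9 t c htc
  exact ⟨fun j => Pool.Agent.W251.EG.finlG hF a b e ha hdisc k hk q u hq j,
    finlow hF (Pool.Agent.W251.EG.lowqG hF) (Pool.Agent.W251.EG.scntG hF) a b e ha hdisc q u hq⟩

end Pool.Agent.W78.EG
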