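import Pool.Agent.W78.EG.Sq3

/-!
Project EG (helper78): squarefree values of `A m^2 + (2 β + t) m + e`: final form.
-/

set_option autoImplicit false

namespace Pool.Agent.W78.EGQ

open Finset Filter
open Pool.Agent.W78.EG
open Pool.Agent.W251.EG (fd9 sps9 tsG pntxG all_of)

variable {t c A β e : ℕ}

open scoped Classical in
/-- the pairs in a window with `d d'` squarefree and `E (d, d')` -/
noncomputable def PE (E : ℕ × ℕ → Prop) (s₁ s₂ s₃ s₄ : ℝ) (X : ℕ) : Finset (ℕ × ℕ) :=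
  (Icc 1 ⌊s₂ * X⌋₊ ×ˢ Icc 1 ⌊s₄ * X⌋₊).filter (fun p => s₁ * X < p.1 ∧ s₃ * X < p.2 ∧
    Squarefree (p.1 * p.2) ∧ E p)

open scoped Classical in
/-- the deviation -/
noncomputable def DE (E : ℕ × ℕ → Prop) (k q r i j : ℕ) (s₁ s₂ s₃ s₄ : ℝ) (X : ℕ) : ℝ :=
  |(((PE E s₁ s₂ s₃ s₄ X).filter (fun p => p.1 ≡ r [MOD q] ∧
      ArithmeticFunction.cardFactors p.1 ≡ i [MOD k] ∧
      ArithmeticFunction.cardFactors p.2 ≡ j [MOD k])).card : ℝ) -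
    1 / (k : ℝ) ^ 2 * (((PE E s₁ s₂ s₃ s₄ X).filter (fun p => p.1 ≡ r [MOD q])).card : ℝ)|

open scoped Classical in
theorem PE_filter {E : ℕ × ℕ → Prop} {q u : ℕ}
    (hE : ∀ p, E p ↔ ∃ m : ℕ, p.1 * p.2 = fq t A β e m ∧ m ≡ u [MOD q]) (s₁ s₂ s₃ s₄ : ℝ) (X r : ℕ)
    (Q : ℕ × ℕ → Prop) :
    (PE E s₁ s₂ s₃ s₄ X).filter (fun p => p.1 ≡ r [MOD q] ∧ Q p) =
    (SV (A : ℤ) ((2 * β + t : ℕ) : ℤ) (e : ℤ) q u r s₁ s₂ s₃ s₄ X).filter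
      (fun p => Squarefree (p.1 * p.2) ∧ Q p) := by
  ext p
  unfold PE SV
  simp only [mem_filter, mem_product, mem_Icc, hE]
  unfold fq
  constructor
  · rintro ⟨⟨h1, h2, h3, h4, m, h5, h6⟩, h7, h8⟩
    exact ⟨⟨h1, h2, h3, m, by exact_mod_cast h5, h6, h7⟩, h4, h8⟩
  · rintro ⟨⟨h1, h2, h3, m, h5, h6, h7⟩, h4, h8⟩
    exact ⟨⟨h1, h2, h3, h4, m, by exact_mod_cast h5, h6⟩, h7, h8⟩

theorem DE_eq {E : ℕ × ℕ → Prop} {q u : ℕ}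
    (hE : ∀ p, E p ↔ ∃ m : ℕ, p.1 * p.2 = fq t A β e m ∧ m ≡ u [MOD q]) (k r i j : ℕ)
    (s₁ s₂ s₃ s₄ : ℝ) (X : ℕ) :
    DE E k q r i j s₁ s₂ s₃ s₄ X = devS t A β e k q u r i j s₁ s₂ s₃ s₄ X := by
  classical
  unfold DE devS
  have h1 := PE_filter hE s₁ s₂ s₃ s₄ X r (fun p =>
    ArithmeticFunction.cardFactors p.1 ≡ i [MOD k] ∧
    ArithmeticFunction.cardFactors p.2 ≡ j [MOD k])
  have h2 := PE_filter hE s₁ s₂ s₃ s₄ X r (fun _ => True)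
  simp only [and_true] at h2
  congr 1
  congr 1
  · exact congrArg (fun S : Finset (ℕ × ℕ) => (S.card : ℝ)) (by convert h1)
  · exact congrArg (fun S : Finset (ℕ × ℕ) => 1 / (k : ℝ) ^ 2 * (S.card : ℝ)) (by convert h2)

open scoped Classical in
/-- the number of `m` -/
noncomputable def cE (F : ℕ → ℕ) (q u k j X : ℕ) : ℕ :=
  ((range (X + 1)).filter (fun m : ℕ => m ≡ u [MOD q] ∧ Squarefree (F m) ∧
    ArithmeticFunction.cardFactors (F m) ≡ j [MOD k])).card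

open scoped Classical in
/-- the theorem -/
theorem sqf9 (h : Dat t c A β e) (h9 : (t, c) ∈ ([(0, 1), (0, 2), (1, 1), (1, 2), (1, 3), (1, 5),
    (1, 11), (1, 17), (1, 41)] : List (ℕ × ℕ))) {k q : ℕ} (hk : 1 ≤ k) (hq : 1 ≤ q) (u : ℕ)
    (F : ℕ → ℕ) (hF : ∀ m, F m = fq t A β e m)
    (hl : ∀ l : ℕ, l.Prime → l ^ 2 ∣ q → ¬ l ^ 2 ∣ F u) :
    (∃ c₁ : ℝ, 0 < c₁ ∧ ∃ X₀ : ℕ, ∀ X : ℕ, X₀ ≤ X →
      c₁ * X ≤ ((PE (fun p => ∃ m : ℕ, p.1 * p.2 = F m ∧ m ≡ u [MOD q]) 0 1 0 1 X).card : ℝ)) ∧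
    (∀ (r i j : ℕ) (s₁ s₂ s₃ s₄ : ℝ), 0 ≤ s₁ → s₁ < s₂ → 0 ≤ s₃ → s₃ < s₄ → ∀ ε : ℝ, 0 < ε →
      Tendsto (fun N : ℕ => (∑ X ∈ (Icc 1 N).filter
        (fun X : ℕ => ε * X < DE (fun p => ∃ m : ℕ, p.1 * p.2 = F m ∧ m ≡ u [MOD q])
          k q r i j s₁ s₂ s₃ s₄ X), 1 / (X : ℝ)) / Real.log N) atTop (nhds 0)) ∧
    (∀ (j : ℕ) (ε : ℝ), 0 < ε → Tendsto (fun Z : ℕ => (∑ X ∈ (Icc 1 Z).filter (fun X : ℕ =>
      (cE F q u k j X : ℝ) < (X : ℝ) / Real.log X ^ (2 * Real.log 2 + ε)), 1 / (X : ℝ)) /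
      Real.log Z) atTop (nhds 0)) ∧
    ∀ (j : ℕ) (δ : ℝ), 0 < δ → ∃ N₀ : ℕ, ∀ N : ℕ, N₀ ≤ N → (N : ℝ) ^ (1 - δ) ≤ cE F q u k j N := by
  obtain ⟨f, χ, hFd⟩ := fd9 t c h9
  have hT := tsG hFd
  have ha := pntxG hFd
  have hS := sps9 t c h9
  have hl' : ∀ l : ℕ, l.Prime → l ^ 2 ∣ q → ¬ l ^ 2 ∣ fq t A β e u := by
    intro l hlp hlq
    rw [← hF]
    exact hl l hlp hlq
  have hE : ∀ p : ℕ × ℕ, (∃ m : ℕ, p.1 * p.2 = F m ∧ m ≡ u [MOD q]) ↔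
      ∃ m : ℕ, p.1 * p.2 = fq t A β e m ∧ m ≡ u [MOD q] := fun p => by simp only [hF]
  have hFf : F = fq t A β e := funext hF
  have hcE : ∀ j, cE F q u k j = cS t A β e q u k j := by
    intro j
    rw [hFf]
    rfl
  refine ⟨?_, ?_, ?_, ?_⟩
  · obtain ⟨c₁, hc₁, X₀, h1⟩ := lowS h hS q u hq hl'
    refine ⟨c₁, hc₁, X₀, fun X hX => (h1 X hX).trans (Nat.cast_le.2 (card_le_card ?_))⟩
    intro p hp
    unfold PQ at hp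
    unfold PE
    rw [one_mul, Nat.floor_natCast, zero_mul]
    simp only [mem_filter, mem_product, mem_Icc] at hp ⊢
    obtain ⟨⟨⟨h2, h3⟩, h4, h5⟩, h6, m, h7, h8⟩ := hp
    exact ⟨⟨⟨h2, h3⟩, h4, h5⟩, by exact_mod_cast h2, by exact_mod_cast h4, h6, m,
      by rw [hF]; exact h7, h8⟩
  · intro r i j s₁ s₂ s₃ s₄ h1 h2 h3 h4 ε hε
    simp only [DE_eq hE]
    exact equS h hFd hT ha hk hq u r i j s₁ s₂ s₃ s₄ h1 h2 h3 h4 ε hε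
  · intro j ε hε
    rw [hcE]
    exact cntS h hFd hT ha hS hk hq u j hl' ε hε
  · intro j δ hδ
    rw [hcE]
    exact all_of (cS_mono t A β e q u k j)
      (fun ε hε => cntS h hFd hT ha hS hk hq u j hl' ε hε) δ hδ

end Pool.Agent.W78.EGQ
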