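import Pool.Agent.W78.EG.Defs2
import Pool.Agent.W215.EG.CN
import Pool.Agent.W551.EG.CHI

/-!
Project EG (helper78): the instances of `Fd` for the discriminants `-3, -7, -8, -11, -19, -43, -67,
-163`.
-/

set_option autoImplicit false

namespace Pool.Agent.W78.EG

/-- the polynomials `x^2 + t x + c` -/
def lst : List (ℤ × ℤ) := [(0, 2), (1, 1), (1, 2), (1, 3), (1, 5), (1, 11), (1, 17), (1, 41)]

theorem fd_odd (c : ℤ) (f : ℕ) (hf : f.Prime) (h3 : f % 4 = 3) (hc : 4 * c = 1 + f)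
    (h : ((1 : ℤ), c) ∈ lst) : ∃ χ : DirichletCharacter ℂ f, Fd 1 c f χ := by
  obtain ⟨χ, hχ, hv, hr⟩ := Pool.Agent.W551.EG.CHI.chi_odd f hf h3
  have hc' : ((f : ℤ) + 1) / 4 = c := by omega
  rw [hc'] at hr
  exact ⟨χ, ⟨Or.inr rfl, by rw [hc]; ring, by have := hf.two_le; omega, hχ, hv, hr,
    fun d r hd hdr => W215.EG.CN.cn1 1 c h d r hd hdr⟩⟩

theorem fd (t c : ℤ) (h : (t, c) ∈ lst) : ∃ (f : ℕ) (χ : DirichletCharacter ℂ f), Fd t c f χ := by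
  have h' := h
  simp only [lst, List.mem_cons, Prod.mk.injEq, List.not_mem_nil, or_false] at h
  rcases h with ⟨rfl, rfl⟩ | ⟨rfl, rfl⟩ | ⟨rfl, rfl⟩ | ⟨rfl, rfl⟩ | ⟨rfl, rfl⟩ | ⟨rfl, rfl⟩ |
      ⟨rfl, rfl⟩ | ⟨rfl, rfl⟩
  · obtain ⟨χ, hχ, hv, hr⟩ := Pool.Agent.W551.EG.CHI.chi_eight
    exact ⟨8, χ, ⟨Or.inl rfl, by norm_num, by norm_num, hχ, hv, hr,
      fun d r hd hdr => W215.EG.CN.cn1 0 2 h' d r hd hdr⟩⟩
  · exact ⟨3, fd_odd 1 3 (by norm_num) (by norm_num) (by norm_num) h'⟩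
  · exact ⟨7, fd_odd 2 7 (by norm_num) (by norm_num) (by norm_num) h'⟩
  · exact ⟨11, fd_odd 3 11 (by norm_num) (by norm_num) (by norm_num) h'⟩
  · exact ⟨19, fd_odd 5 19 (by norm_num) (by norm_num) (by norm_num) h'⟩
  · exact ⟨43, fd_odd 11 43 (by norm_num) (by norm_num) (by norm_num) h'⟩
  · exact ⟨67, fd_odd 17 67 (by norm_num) (by norm_num) (by norm_num) h'⟩
  · exact ⟨163, fd_odd 41 163 (by norm_num) (by norm_num) (by norm_num) h'⟩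

end Pool.Agent.W78.EG
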