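import Pool.Agent.W78.EG.Defs

/-!
Project EG (helper78), part 2: from `n^2 + t n + c` to all quadratic polynomials `a m^2 + b m + e` of
discriminant `t^2 - 4 c`. Definitions and statements.
-/

set_option autoImplicit false

namespace Pool.Agent.W78.EG

open Finset Filter

/-- SPR: lower bound for the number of pairs with `n ≡ n₀`, `d ≡ d₀ mod q`, where
`d₀ d₀' = n₀^2 + t n₀ + c` -/
def S_SPR (t c : ℤ) : Prop := ∀ q n₀ d₀ d₀' : ℕ, 1 ≤ q → 1 ≤ d₀ → 1 ≤ d₀' →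
  (d₀ * d₀' : ℤ) = (n₀ : ℤ) ^ 2 + t * n₀ + c → 0 < 2 * (n₀ : ℤ) + t →
  ∃ c₁ : ℝ, 0 < c₁ ∧ ∃ X₀ : ℕ, ∀ X : ℕ, X₀ ≤ X →
    (open scoped Classical in c₁ * X ≤ (((SP t c X).filter (Cd t c q n₀ d₀)).card : ℝ))

open scoped Classical in
/-- the pairs of positive integers with `s₁ X < d ≤ s₂ X`, `s₃ X < d' ≤ s₄ X` and
`d d' = a m^2 + b m + e` for some `m ≥ 0` with `m ≡ u mod q`, and `d ≡ r mod q` -/
noncomputable def SV (a b e : ℤ) (q u r : ℕ) (s₁ s₂ s₃ s₄ : ℝ) (X : ℕ) : Finset (ℕ × ℕ) :=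
  ((Icc 1 ⌊s₂ * X⌋₊) ×ˢ (Icc 1 ⌊s₄ * X⌋₊)).filter
    (fun p => s₁ * X < (p.1 : ℝ) ∧ s₃ * X < (p.2 : ℝ) ∧
      ∃ m : ℕ, (p.1 * p.2 : ℤ) = a * (m : ℤ) ^ 2 + b * m + e ∧ m ≡ u [MOD q] ∧ p.1 ≡ r [MOD q])

/-- the deviation at scale `X` from equidistribution modulo `k` -/
noncomputable def devV (a b e : ℤ) (k q u r i j : ℕ) (s₁ s₂ s₃ s₄ : ℝ) (X : ℕ) : ℝ :=
  |(((SV a b e q u r s₁ s₂ s₃ s₄ X).filter (fun p =>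
    ArithmeticFunction.cardFactors p.1 ≡ i [MOD k] ∧
    ArithmeticFunction.cardFactors p.2 ≡ j [MOD k])).card : ℝ) -
    1 / (k : ℝ) ^ 2 * ((SV a b e q u r s₁ s₂ s₃ s₄ X).card : ℝ)|

/-- FINQ: for almost all scales `X` the residues modulo `k` of `(Ω(d), Ω(d'))` are equidistributed
over the pairs in every window -/
def S_FINQ (t c : ℤ) : Prop := ∀ a b e : ℤ, 0 < a → b ^ 2 - 4 * a * e = t ^ 2 - 4 * c →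
  ∀ k : ℕ, 1 ≤ k → ∀ q u r : ℕ, 1 ≤ q → ∀ i j : ℕ,
  ∀ (s₁ s₂ s₃ s₄ : ℝ), 0 ≤ s₁ → s₁ < s₂ → 0 ≤ s₃ → s₃ < s₄ → ∀ ε : ℝ, 0 < ε →
  Tendsto (fun N : ℕ => (∑ X ∈ (Icc 1 N).filter
    (fun X : ℕ => ε * X < devV a b e k q u r i j s₁ s₂ s₃ s₄ X), 1 / (X : ℝ)) / Real.log N)
    atTop (nhds 0)

open scoped Classical in
/-- LOWQ: lower bound for the number of pairs -/
def S_LOWQ (t c : ℤ) : Prop := ∀ a b e : ℤ, 0 < a → b ^ 2 - 4 * a * e = t ^ 2 - 4 * c →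
  ∀ q u : ℕ, 1 ≤ q → ∃ c₁ : ℝ, 0 < c₁ ∧ ∃ X₀ : ℕ, ∀ X : ℕ, X₀ ≤ X →
  c₁ * X ≤ ((((Icc 1 X) ×ˢ (Icc 1 X)).filter (fun p : ℕ × ℕ =>
    ∃ m : ℕ, (p.1 * p.2 : ℤ) = a * (m : ℤ) ^ 2 + b * m + e ∧ m ≡ u [MOD q])).card : ℝ)

/-- `a m^2 + b m + e` as a natural number -/
def qv (a b e : ℤ) (m : ℕ) : ℕ := (a * (m : ℤ) ^ 2 + b * m + e).toNat

/-- the weight `∑_{d d' = a m^2+b m+e} 1/max(d,d')` -/
noncomputable def wq (a b e : ℤ) (m : ℕ) : ℝ := ∑ d ∈ Nat.divisors (qv a b e m),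
  1 / ((max d (qv a b e m / d) : ℕ) : ℝ)

/-- FINL: `Ω(a m^2 + b m + e)` is equidistributed modulo `k` with respect to the logarithmic weights,
in every residue class -/
def S_FINL (t c : ℤ) : Prop := ∀ a b e : ℤ, 0 < a → b ^ 2 - 4 * a * e = t ^ 2 - 4 * c →
  ∀ k : ℕ, 1 ≤ k → ∀ q u : ℕ, 1 ≤ q → ∀ j : ℕ, Tendsto (fun N : ℕ =>
  (∑ m ∈ (Icc 1 N).filter (fun m => m ≡ u [MOD q] ∧
    ArithmeticFunction.cardFactors (qv a b e m) ≡ j [MOD k]), wq a b e m) /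
    ∑ m ∈ (Icc 1 N).filter (fun m => m ≡ u [MOD q]), wq a b e m) atTop (nhds (1 / (k : ℝ)))

end Pool.Agent.W78.EG
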