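import Pool.Agent.W78.EG.Sq1
import Pool.Agent.W347.EG.FINQ
import Pool.Agent.W251.EG.Defs3

/-!
Project EG (helper78): squarefree values of `A m^2 + (2 β + t) m + e`.
-/

set_option autoImplicit false

namespace Pool.Agent.W78.EGQ

open Finset Filter
open Pool.Agent.W78.EG
open Pool.Agent.W78.GA (Qd nm)
open Pool.Agent.W251.EG (FGc S_TSc S_SPSc)
open Pool.Agent.W347.EG (card_cmp fwd bwd bad_scales)

/-- the data of the substitution `n = A m + β` -/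
structure Dat (t c A β e : ℕ) : Prop where
  pos : 1 ≤ A
  lt : β < A
  ce : 1 ≤ c
  id : β ^ 2 + t * β + c = A * e
  sqf : Squarefree A
  cop : ∀ m : ℕ, Nat.Coprime A (A * m ^ 2 + (2 * β + t) * m + e)

/-- the polynomial -/
def fq (t A β e m : ℕ) : ℕ := A * m ^ 2 + (2 * β + t) * m + e

section

variable {t c A β e : ℕ}

theorem ident (h : Dat t c A β e) (m : ℕ) :
    (A * m + β) ^ 2 + t * (A * m + β) + c = A * fq t A β e m := by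
  have h1 : (β : ℤ) ^ 2 + t * β + c = A * e := by exact_mod_cast h.id
  unfold fq
  zify
  linear_combination h1

theorem sqf_iff (h : Dat t c A β e) {x y m : ℕ} (hm : x * y = fq t A β e m) :
    Squarefree (x * y) ↔ Squarefree (A * x * y) := by
  have h1 : Nat.Coprime A (x * y) := by rw [hm]; exact h.cop m
  rw [mul_assoc, Nat.squarefree_mul h1]
  simp [h.sqf]

open scoped Classical in
/-- the deviation at scale `X` from equidistribution modulo `k`, for squarefree `d d'` -/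
noncomputable def devS (t A β e k q u r i j : ℕ) (s₁ s₂ s₃ s₄ : ℝ) (X : ℕ) : ℝ :=
  |(((SV (A : ℤ) ((2 * β + t : ℕ) : ℤ) (e : ℤ) q u r s₁ s₂ s₃ s₄ X).filter
    (fun p => Squarefree (p.1 * p.2) ∧ ArithmeticFunction.cardFactors p.1 ≡ i [MOD k] ∧
    ArithmeticFunction.cardFactors p.2 ≡ j [MOD k])).card : ℝ) -
    1 / (k : ℝ) ^ 2 * (((SV (A : ℤ) ((2 * β + t : ℕ) : ℤ) (e : ℤ) q u r s₁ s₂ s₃ s₄ X).filter
      (fun p => Squarefree (p.1 * p.2))).card : ℝ)|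

open scoped Classical in
theorem dev_leS (h : Dat t c A β e) {f : ℕ} {χ : DirichletCharacter ℂ f}
    (hF : Fd (t : ℤ) (c : ℤ) f χ) {k : ℕ} (hk : 1 ≤ k) {q : ℕ} (hq : 1 ≤ q) (u r i j : ℕ)
    {s₁ s₂ s₃ s₄ : ℝ} (hs2 : 0 ≤ s₂) (hs4 : 0 ≤ s₄) : ∃ (C : ℕ) (K : ℝ), 1 ≤ C ∧
    A * s₂ ≤ C ∧ s₄ ≤ C ∧ ∀ X : ℕ,
    devS t A β e k q u r i j s₁ s₂ s₃ s₄ X ≤
      devQ (t : ℤ) (c : ℤ) k (A * q) (A * u + β) (A * r) (i + ArithmeticFunction.cardFactors A) j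
        (A * s₁ / C) (A * s₂ / C) (s₃ / C) (s₄ / C) (C * X) + K := by
  have hA1 := h.pos
  obtain ⟨C, hC⟩ := exists_nat_ge (max 1 (max (A * s₂) s₄))
  have hC1 : 1 ≤ C := by
    have : (1 : ℝ) ≤ C := (le_max_left _ _).trans hC
    exact_mod_cast this
  have hC2 : A * s₂ ≤ C := ((le_max_left _ _).trans (le_max_right _ _)).trans hC
  have hC4 : s₄ ≤ C := ((le_max_right _ _).trans (le_max_right _ _)).trans hC
  have hb : ((2 * β + t : ℕ) : ℤ) = 2 * (β : ℤ) + (t : ℤ) := by push_cast; ring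
  have hdisc : ((2 * β + t : ℕ) : ℤ) ^ 2 - 4 * (A : ℤ) * (e : ℤ) = (t : ℤ) ^ 2 - 4 * (c : ℤ) := by
    have h1 : (β : ℤ) ^ 2 + t * β + c = A * e := by exact_mod_cast h.id
    push_cast
    linear_combination 4 * h1
  have hn₀ : ((A * u + β : ℕ) : ℤ) ≡ (A : ℤ) * u + (β : ℤ) [ZMOD ((A : ℤ) * q)] := by
    push_cast
    exact Int.ModEq.refl _
  obtain ⟨small, hsmall⟩ : ∃ small : Finset (ℕ × ℕ), small =
      Icc 1 (((2 * β + t : ℕ) : ℤ) ^ 2 + f).toNat ×ˢ Icc 1 (((2 * β + t : ℕ) : ℤ) ^ 2 + f).toNat :=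
    ⟨_, rfl⟩
  refine ⟨C, 2 * small.card, hC1, hC2, hC4, fun X => ?_⟩
  have hinj : Function.Injective (fun p : ℕ × ℕ => (A * p.1, p.2)) := by
    intro p p' hpp
    simp only [Prod.mk.injEq] at hpp
    exact Prod.ext (Nat.eq_of_mul_eq_mul_left (by omega) hpp.1) hpp.2
  obtain ⟨V, hV⟩ : ∃ V : Finset (ℕ × ℕ),
      V = SV (A : ℤ) ((2 * β + t : ℕ) : ℤ) (e : ℤ) q u r s₁ s₂ s₃ s₄ X := ⟨_, rfl⟩
  obtain ⟨W, hW⟩ : ∃ W : Finset (ℕ × ℕ), W = SW (t : ℤ) (c : ℤ) (A * q) (A * u + β) (A * r)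
      (A * s₁ / C) (A * s₂ / C) (s₃ / C) (s₄ / C) (C * X) := ⟨_, rfl⟩
  have hf : ∀ p ∈ V, (A * p.1, p.2) ∈ W ∨ (A * p.1, p.2) ∈ small := by
    rw [hV, hW, hsmall]
    exact fwd hF.tt hF.disc hb hdisc rfl hA1 hn₀ hC1 hC2 hC4 hs2 hs4
  have hg : ∀ P ∈ W, (∃ p ∈ V, (A * p.1, p.2) = P) ∨ P ∈ small := by
    rw [hV, hW, hsmall]
    exact bwd hF.disc hb hdisc rfl hA1 hn₀ hC1
  have hmem : ∀ p ∈ V, 1 ≤ p.1 ∧ ∃ m : ℕ, p.1 * p.2 = fq t A β e m := by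
    intro p hp
    rw [hV] at hp
    unfold SV at hp
    obtain ⟨hp0, _, _, m, hm, _⟩ := mem_filter.1 hp
    refine ⟨(mem_Icc.1 (mem_product.1 hp0).1).1, m, ?_⟩
    unfold fq
    exact_mod_cast hm
  have c1 := card_cmp hinj hf hg (fun p => Squarefree (p.1 * p.2) ∧
    ArithmeticFunction.cardFactors p.1 ≡ i [MOD k] ∧
    ArithmeticFunction.cardFactors p.2 ≡ j [MOD k]) (fun p => Squarefree (p.1 * p.2) ∧
    ArithmeticFunction.cardFactors p.1 ≡ i + ArithmeticFunction.cardFactors A [MOD k] ∧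
    ArithmeticFunction.cardFactors p.2 ≡ j [MOD k]) (by
      intro p hp
      obtain ⟨hp1, m, hm⟩ := hmem p hp
      show _ ↔ Squarefree (A * p.1 * p.2) ∧
        ArithmeticFunction.cardFactors (A * p.1) ≡ i + ArithmeticFunction.cardFactors A
        [MOD k] ∧ ArithmeticFunction.cardFactors p.2 ≡ j [MOD k]
      rw [← sqf_iff h hm, ArithmeticFunction.cardFactors_mul (by omega) (by omega),
        add_comm (ArithmeticFunction.cardFactors A)]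
      constructor
      · rintro ⟨h0, h1, h2⟩
        exact ⟨h0, Nat.ModEq.add_right _ h1, h2⟩
      · rintro ⟨h0, h1, h2⟩
        exact ⟨h0, Nat.ModEq.add_right_cancel' _ h1, h2⟩)
  have c2 := card_cmp hinj hf hg (fun p => Squarefree (p.1 * p.2))
    (fun p => Squarefree (p.1 * p.2)) (by
      intro p hp
      obtain ⟨hp1, m, hm⟩ := hmem p hp
      exact sqf_iff h hm)
  unfold devS devQ
  rw [← hV, ← hW]
  have hk1 : (0 : ℝ) ≤ 1 / (k : ℝ) ^ 2 := by positivity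
  have hk2 : 1 / (k : ℝ) ^ 2 ≤ 1 := by
    rw [div_le_one (by positivity)]
    have : (1 : ℝ) ≤ k := by exact_mod_cast hk
    nlinarith
  have hs0 : (0 : ℝ) ≤ small.card := Nat.cast_nonneg _
  obtain ⟨x₁, hx₁⟩ : ∃ x₁ : ℝ, x₁ = ((V.filter (fun p => Squarefree (p.1 * p.2) ∧
    ArithmeticFunction.cardFactors p.1 ≡ i [MOD k] ∧
    ArithmeticFunction.cardFactors p.2 ≡ j [MOD k])).card : ℝ) := ⟨_, rfl⟩
  obtain ⟨x₂, hx₂⟩ : ∃ x₂ : ℝ, x₂ = ((W.filter (fun p => Squarefree (p.1 * p.2) ∧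
    ArithmeticFunction.cardFactors p.1 ≡ i + ArithmeticFunction.cardFactors A [MOD k] ∧
    ArithmeticFunction.cardFactors p.2 ≡ j [MOD k])).card : ℝ) := ⟨_, rfl⟩
  obtain ⟨y₁, hy₁⟩ : ∃ y₁ : ℝ, y₁ = ((V.filter (fun p => Squarefree (p.1 * p.2))).card : ℝ) :=
    ⟨_, rfl⟩
  obtain ⟨y₂, hy₂⟩ : ∃ y₂ : ℝ, y₂ = ((W.filter (fun p => Squarefree (p.1 * p.2))).card : ℝ) :=
    ⟨_, rfl⟩
  have c1' : |x₁ - x₂| ≤ small.card := by
    rw [hx₁, hx₂]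
    convert c1
  have c2' : |y₁ - y₂| ≤ small.card := by
    rw [hy₁, hy₂]
    convert c2
  rw [← hx₁, ← hx₂, ← hy₁, ← hy₂]
  calc |x₁ - 1 / (k : ℝ) ^ 2 * y₁|
      = |(x₂ - 1 / (k : ℝ) ^ 2 * y₂) + ((x₁ - x₂) - 1 / (k : ℝ) ^ 2 * (y₁ - y₂))| := by
        congr 1; ring
    _ ≤ |x₂ - 1 / (k : ℝ) ^ 2 * y₂| + |(x₁ - x₂) - 1 / (k : ℝ) ^ 2 * (y₁ - y₂)| := abs_add_le _ _
    _ ≤ |x₂ - 1 / (k : ℝ) ^ 2 * y₂| + (|x₁ - x₂| + |1 / (k : ℝ) ^ 2 * (y₁ - y₂)|) := by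
        gcongr
        exact abs_sub _ _
    _ ≤ |x₂ - 1 / (k : ℝ) ^ 2 * y₂| + (small.card + 1 * small.card) := by
        rw [abs_mul, abs_of_nonneg hk1]
        gcongr
    _ = |x₂ - 1 / (k : ℝ) ^ 2 * y₂| + 2 * small.card := by ring

/-- equidistribution for squarefree values, in windows -/
theorem equS (h : Dat t c A β e) {f : ℕ} {χ : DirichletCharacter ℂ f}
    (hF : Fd (t : ℤ) (c : ℤ) f χ) (hT : S_TSc (t : ℤ) (c : ℤ) χ) (ha : S_PNTX (t : ℤ) (c : ℤ))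
    {k : ℕ} (hk : 1 ≤ k) {q : ℕ} (hq : 1 ≤ q) (u r i j : ℕ)
    (s₁ s₂ s₃ s₄ : ℝ) (hs1 : 0 ≤ s₁) (hs12 : s₁ < s₂) (hs3 : 0 ≤ s₃) (hs34 : s₃ < s₄) (ε : ℝ)
    (hε : 0 < ε) : Tendsto (fun N : ℕ => (∑ X ∈ (Icc 1 N).filter
      (fun X : ℕ => ε * X < devS t A β e k q u r i j s₁ s₂ s₃ s₄ X), 1 / (X : ℝ)) / Real.log N)
      atTop (nhds 0) := by
  obtain ⟨C, K, hC1, hC2, hC4, hdev⟩ := dev_leS h hF hk hq u r i j
    (s₁ := s₁) (s₂ := s₂) (s₃ := s₃) (s₄ := s₄) (by linarith) (by linarith)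
  have hC0 : (0 : ℝ) < C := by exact_mod_cast hC1
  have hA0 : (0 : ℝ) < A := by exact_mod_cast h.pos
  have hA1 := h.pos
  refine bad_scales hC1 hdev (fun ε' hε' => ?_) hε
  refine finq hT ha k hk (A * q) _ (A * r) (Nat.one_le_iff_ne_zero.2 (by positivity)) _ j _ _ _ _
    (by positivity) ?_ ?_ (by positivity) ?_ ?_ ε' hε'
  · gcongr
  · rwa [div_le_one hC0]
  · gcongr
  · rwa [div_le_one hC0]

end

end Pool.Agent.W78.EGQ
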