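import Pool.Agent.W78.EG.Sq2
import Pool.Agent.W251.EG.Out6

/-!
Project EG (helper78): squarefree values of `A m^2 + (2 β + t) m + e`: lower bounds and counts.
-/

set_option autoImplicit false

namespace Pool.Agent.W78.EGQ

open Finset Filter
open Pool.Agent.W78.EG
open Pool.Agent.W78.GA (Qd nm)
open Pool.Agent.W251.EG (FGc S_TSc S_SPSc fcond fsqrt t_le pnG null_of all_of)
open Pool.Agent.W251.EX (sum_null)

variable {t c A β e : ℕ}

open scoped Classical in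
/-- the pairs with squarefree product -/
noncomputable def PQ (t A β e q u : ℕ) (X : ℕ) : Finset (ℕ × ℕ) :=
  (Icc 1 X ×ˢ Icc 1 X).filter (fun p => Squarefree (p.1 * p.2) ∧
    ∃ m : ℕ, p.1 * p.2 = fq t A β e m ∧ m ≡ u [MOD q])

/-- the local condition -/
theorem loc (h : Dat t c A β e) {q u : ℕ}
    (hl : ∀ l : ℕ, l.Prime → l ^ 2 ∣ q → ¬ l ^ 2 ∣ fq t A β e u) (l : ℕ) (hlp : l.Prime)
    (hlq : l ^ 2 ∣ A * q) : ¬ l ^ 2 ∣ (A * u + β) ^ 2 + t * (A * u + β) + c := by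
  intro hd
  rw [ident h u] at hd
  have hcop : Nat.Coprime A (fq t A β e u) := h.cop u
  by_cases hlA : l ∣ A
  · have hlf : ¬ l ∣ fq t A β e u := by
      intro h1
      have h2 := Nat.dvd_gcd hlA h1
      rw [Nat.Coprime] at hcop
      rw [hcop] at h2
      exact hlp.one_lt.ne' (Nat.dvd_one.1 h2)
    have h3 : Nat.Coprime (l ^ 2) (fq t A β e u) :=
      Nat.Coprime.pow_left 2 ((Nat.Prime.coprime_iff_not_dvd hlp).2 hlf)
    have h4 : l ^ 2 ∣ A := h3.dvd_of_dvd_mul_right hd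
    have h5 := h.sqf l (by rw [← pow_two]; exact h4)
    exact hlp.one_lt.ne' (Nat.isUnit_iff.1 h5)
  · have h3 : Nat.Coprime (l ^ 2) A :=
      Nat.Coprime.pow_left 2 ((Nat.Prime.coprime_iff_not_dvd hlp).2 hlA)
    exact hl l hlp (h3.dvd_of_dvd_mul_left hlq) (h3.dvd_of_dvd_mul_left hd)

open scoped Classical in
/-- lower bound for the number of pairs -/
theorem lowS (h : Dat t c A β e) (hS : S_SPSc (t : ℤ) (c : ℤ)) (q u : ℕ) (hq : 1 ≤ q)
    (hl : ∀ l : ℕ, l.Prime → l ^ 2 ∣ q → ¬ l ^ 2 ∣ fq t A β e u) :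
    ∃ c₁ : ℝ, 0 < c₁ ∧ ∃ X₀ : ℕ, ∀ X : ℕ, X₀ ≤ X → c₁ * X ≤ ((PQ t A β e q u X).card : ℝ) := by
  have hA1 := h.pos
  obtain ⟨c₁, hc₁, X₀, hX₀⟩ := hS (A * q) (A * u + β) (Nat.one_le_iff_ne_zero.2 (by positivity))
    (fun l hlp hlq hd => loc h hl l hlp hlq (by exact_mod_cast hd))
  have hD : 0 < A.divisors.card := card_pos.2 ⟨1, Nat.mem_divisors.2 ⟨one_dvd _, by omega⟩⟩
  have hD' : (0 : ℝ) < A.divisors.card := by exact_mod_cast hD
  refine ⟨c₁ / A.divisors.card, by positivity, X₀, fun X hX => ?_⟩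
  have h1 := hX₀ X hX
  obtain ⟨B, hB⟩ : ∃ B : Finset (ℕ × ℕ), B = (SP (t : ℤ) (c : ℤ) X).filter
    (fun p => Squarefree (p.1 * p.2) ∧
      ∃ n : ℕ, 0 < 2 * (n : ℤ) + (t : ℤ) ∧ (p.1 * p.2 : ℤ) = (n : ℤ) ^ 2 + (t : ℤ) * n + (c : ℤ) ∧
        n ≡ A * u + β [MOD A * q]) := ⟨_, rfl⟩
  rw [← hB] at h1
  have hBm : ∀ P ∈ B, 1 ≤ P.1 ∧ P.1 ≤ X ∧ 1 ≤ P.2 ∧ P.2 ≤ X ∧ Squarefree (P.1 * P.2) ∧
      ∃ m : ℕ, P.1 * P.2 = A * fq t A β e m ∧ m ≡ u [MOD q] := by
    intro P hP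
    rw [hB] at hP
    obtain ⟨h2, h3, n, h4, h5, h6⟩ := mem_filter.1 hP
    obtain ⟨_, h8⟩ := (fcond n P.1 P.2).1 ⟨h4, h5⟩
    unfold SP at h2
    simp only [mem_filter, mem_product, mem_Icc] at h2
    have h9 : n % A = β := by
      have h10 : n ≡ A * u + β [MOD A] := Nat.ModEq.of_mul_right _ h6
      have h11 : n % A = (A * u + β) % A := h10
      rw [h11, Nat.mul_add_mod]
      exact Nat.mod_eq_of_lt h.lt
    obtain ⟨m, hm⟩ : ∃ m, n = A * m + β := ⟨n / A, by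
      conv_lhs => rw [← Nat.div_add_mod n A, h9]⟩
    refine ⟨h2.1.1.1, h2.1.1.2, h2.1.2.1, h2.1.2.2, h3, m, ?_, ?_⟩
    · rw [h8, hm, ident h m]
    · rw [hm] at h6
      have h11 : A * m ≡ A * u [MOD A * q] := Nat.ModEq.add_right_cancel' β h6
      exact Nat.ModEq.mul_left_cancel' (by omega) h11
  have hgcd : ∀ P ∈ B, Nat.gcd A P.1 * Nat.gcd A P.2 = A := by
    intro P hP
    obtain ⟨_, _, _, _, h3, m, h4, _⟩ := hBm P hP
    have hcop : Nat.Coprime P.1 P.2 := Nat.coprime_of_squarefree_mul h3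
    rw [← Nat.Coprime.gcd_mul A hcop, h4]
    exact Nat.gcd_eq_left (dvd_mul_right _ _)
  have hfib : ∀ P ∈ B, ∃ x y : ℕ, P.1 = Nat.gcd A P.1 * x ∧ P.2 = Nat.gcd A P.2 * y ∧
      P.1 / Nat.gcd A P.1 = x ∧ P.2 / Nat.gcd A P.2 = y := by
    intro P _
    obtain ⟨x, hx⟩ : Nat.gcd A P.1 ∣ P.1 := Nat.gcd_dvd_right _ _
    obtain ⟨y, hy⟩ : Nat.gcd A P.2 ∣ P.2 := Nat.gcd_dvd_right _ _
    have g1 : 0 < Nat.gcd A P.1 := Nat.gcd_pos_of_pos_left _ (by omega)
    have g2 : 0 < Nat.gcd A P.2 := Nat.gcd_pos_of_pos_left _ (by omega)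
    exact ⟨x, y, hx, hy, Nat.div_eq_of_eq_mul_right g1 hx, Nat.div_eq_of_eq_mul_right g2 hy⟩
  obtain ⟨φ, hφ⟩ : ∃ φ : ℕ × ℕ → ℕ × ℕ,
    φ = fun P => (P.1 / Nat.gcd A P.1, P.2 / Nat.gcd A P.2) := ⟨_, rfl⟩
  have hmaps : B.image φ ⊆ PQ t A β e q u X := by
    intro Q hQ
    obtain ⟨P, hP, rfl⟩ := mem_image.1 hQ
    obtain ⟨a1, a2, a3, a4, a5, m, a6, a7⟩ := hBm P hP
    obtain ⟨x, y, hx, hy, ex, ey⟩ := hfib P hP
    have g := hgcd P hP
    have g1 : 1 ≤ Nat.gcd A P.1 := Nat.gcd_pos_of_pos_left _ (by omega)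
    have g2 : 1 ≤ Nat.gcd A P.2 := Nat.gcd_pos_of_pos_left _ (by omega)
    have hA2 : A * (x * y) = P.1 * P.2 := by
      calc A * (x * y) = (Nat.gcd A P.1 * Nat.gcd A P.2) * (x * y) := by rw [g]
        _ = (Nat.gcd A P.1 * x) * (Nat.gcd A P.2 * y) := by ring
        _ = P.1 * P.2 := by rw [← hx, ← hy]
    have exy : x * y = fq t A β e m := by
      rw [a6] at hA2
      exact Nat.eq_of_mul_eq_mul_left (by omega) hA2
    have hx1 : 1 ≤ x := by
      rcases Nat.eq_zero_or_pos x with h0 | h0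
      · rw [h0, mul_zero] at hx; omega
      · exact h0
    have hy1 : 1 ≤ y := by
      rcases Nat.eq_zero_or_pos y with h0 | h0
      · rw [h0, mul_zero] at hy; omega
      · exact h0
    have hxX : x ≤ X := by
      calc x = 1 * x := (one_mul x).symm
        _ ≤ Nat.gcd A P.1 * x := Nat.mul_le_mul_right _ g1
        _ = P.1 := hx.symm
        _ ≤ X := a2
    have hyX : y ≤ X := by
      calc y = 1 * y := (one_mul y).symm
        _ ≤ Nat.gcd A P.2 * y := Nat.mul_le_mul_right _ g2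
        _ = P.2 := hy.symm
        _ ≤ X := a4
    have hφP : φ P = (x, y) := by rw [hφ]; exact Prod.ext ex ey
    rw [hφP]
    unfold PQ
    rw [mem_filter, mem_product, mem_Icc, mem_Icc]
    refine ⟨⟨⟨hx1, hxX⟩, hy1, hyX⟩, ?_, m, exy, a7⟩
    exact a5.squarefree_of_dvd (by rw [← hA2]; exact dvd_mul_left _ _)
  have hcard : B.card ≤ A.divisors.card * (B.image φ).card := by
    refine card_le_mul_card_image B _ (fun Q _ => ?_)
    refine card_le_card_of_injOn (fun P : ℕ × ℕ => Nat.gcd A P.1) (fun P _ => ?_) ?_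
    · exact Finset.mem_coe.2 (Nat.mem_divisors.2 ⟨Nat.gcd_dvd_left _ _, by omega⟩)
    · intro P hP P' hP' hPP
      obtain ⟨hP1, hP2⟩ := mem_filter.1 (Finset.mem_coe.1 hP)
      obtain ⟨hP1', hP2'⟩ := mem_filter.1 (Finset.mem_coe.1 hP')
      obtain ⟨x, y, hx, hy, ex, ey⟩ := hfib P hP1
      obtain ⟨x', y', hx', hy', ex', ey'⟩ := hfib P' hP1'
      have g := hgcd P hP1
      have g' := hgcd P' hP1'
      simp only at hPP
      have g1 : 0 < Nat.gcd A P.1 := Nat.gcd_pos_of_pos_left _ (by omega)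
      have h2 : Nat.gcd A P.2 = Nat.gcd A P'.2 := by
        have h3 : Nat.gcd A P.1 * Nat.gcd A P.2 = Nat.gcd A P.1 * Nat.gcd A P'.2 := by
          rw [g, hPP, g']
        exact Nat.eq_of_mul_eq_mul_left g1 h3
      have h4 : (x, y) = (x', y') := by
        have e1 : φ P = (x, y) := by rw [hφ]; exact Prod.ext ex ey
        have e2 : φ P' = (x', y') := by rw [hφ]; exact Prod.ext ex' ey'
        rw [← e1, ← e2, hP2, hP2']
      have h5 : x = x' := congrArg Prod.fst h4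
      have h6 : y = y' := congrArg Prod.snd h4
      refine Prod.ext ?_ ?_
      · rw [hx, hx', h5, hPP]
      · rw [hy, hy', h6, h2]
  have h2 : (B.card : ℝ) ≤ A.divisors.card * (PQ t A β e q u X).card := by
    have := hcard.trans (Nat.mul_le_mul_left _ (card_le_card hmaps))
    exact_mod_cast this
  rw [div_mul_eq_mul_div, div_le_iff₀ hD']
  calc c₁ * X ≤ (B.card : ℝ) := h1
    _ ≤ _ := h2
    _ = _ := mul_comm _ _

open scoped Classical in
theorem cardPQ (q : ℕ) (hq : 1 ≤ q) (u X : ℕ) (Q : ℕ × ℕ → Prop) :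
    (((PQ t A β e q u X).filter Q).card : ℝ) = ∑ r ∈ range q,
      (((SV (A : ℤ) ((2 * β + t : ℕ) : ℤ) (e : ℤ) q u r 0 1 0 1 X).filter
        (fun p => Squarefree (p.1 * p.2) ∧ Q p)).card : ℝ) := by
  rw [card_eq_sum_card_fiberwise (s := (PQ t A β e q u X).filter Q) (t := range q)
      (f := fun p : ℕ × ℕ => p.1 % q) (fun p _ => mem_range.2 (Nat.mod_lt _ (by omega)))]
  push_cast
  refine sum_congr rfl fun r hr => ?_
  have hr' : r % q = r := Nat.mod_eq_of_lt (mem_range.1 hr)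
  congr 2
  ext p
  unfold PQ SV fq
  rw [one_mul, Nat.floor_natCast]
  simp only [mem_filter, mem_product, mem_Icc, zero_mul]
  constructor
  · rintro ⟨⟨⟨⟨⟨h1, h2⟩, h3, h4⟩, h5, m, h6, h7⟩, h8⟩, h9⟩
    refine ⟨⟨⟨⟨h1, h2⟩, h3, h4⟩, by exact_mod_cast h1, by exact_mod_cast h3, m,
      by exact_mod_cast h6, h7, ?_⟩, h5, h8⟩
    show p.1 % q = r % q
    rw [h9, hr']
  · rintro ⟨⟨⟨⟨h1, h2⟩, h3, h4⟩, _, _, m, h6, h7, h9⟩, h5, h8⟩
    refine ⟨⟨⟨⟨⟨h1, h2⟩, h3, h4⟩, h5, m, by exact_mod_cast h6, h7⟩, h8⟩, ?_⟩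
    have h10 : p.1 % q = r % q := h9
    rw [h10, hr']

open scoped Classical in
/-- the number of `m` -/
noncomputable def cS (t A β e q u k j X : ℕ) : ℕ :=
  ((range (X + 1)).filter (fun m : ℕ => m ≡ u [MOD q] ∧ Squarefree (fq t A β e m) ∧
    ArithmeticFunction.cardFactors (fq t A β e m) ≡ j [MOD k])).card

theorem cS_mono (t A β e q u k j : ℕ) : Monotone (cS t A β e q u k j) := by
  classical
  intro X Y h
  unfold cS
  refine card_le_card fun n hn => ?_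
  rw [mem_filter, mem_range] at hn ⊢
  exact ⟨by omega, hn.2⟩

open scoped Classical in
/-- many `m` in each class modulo `k`, at almost all scales -/
theorem cntS (h : Dat t c A β e) {f : ℕ} {χ : DirichletCharacter ℂ f}
    (hF : Fd (t : ℤ) (c : ℤ) f χ) (hT : S_TSc (t : ℤ) (c : ℤ) χ) (ha : S_PNTX (t : ℤ) (c : ℤ))
    (hS : S_SPSc (t : ℤ) (c : ℤ)) {k : ℕ} (hk : 1 ≤ k) {q : ℕ} (hq : 1 ≤ q) (u j : ℕ)
    (hl : ∀ l : ℕ, l.Prime → l ^ 2 ∣ q → ¬ l ^ 2 ∣ fq t A β e u) (ε : ℝ) (hε : 0 < ε) :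
    Tendsto (fun Z : ℕ => (∑ X ∈ (Icc 1 Z).filter (fun X : ℕ =>
      (cS t A β e q u k j X : ℝ) < (X : ℝ) / Real.log X ^ (2 * Real.log 2 + ε)), 1 / (X : ℝ)) /
      Real.log Z) atTop (nhds 0) := by
  have ht := t_le hF
  have hA1 := h.pos
  have hA0 : (0 : ℝ) < A := by exact_mod_cast hA1
  have hA1' : (1 : ℝ) ≤ A := by exact_mod_cast hA1
  have hk0 : (0 : ℝ) < k := by exact_mod_cast hk
  obtain ⟨c₁, hc₁, X₀, hlow⟩ := lowS h hS q u hq hl
  obtain ⟨ε₀, hε₀⟩ : ∃ ε₀ : ℝ, ε₀ = c₁ / (2 * (k : ℝ) ^ 2) := ⟨_, rfl⟩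
  have hε₀p : 0 < ε₀ := by rw [hε₀]; positivity
  obtain ⟨N₁, hpn⟩ := pnG hF (ε₀ / 2 / A) (ε / 2) (by positivity) (by positivity)
  obtain ⟨K, hK⟩ : ∃ K : ℕ, K = fq t A β e 0 := ⟨_, rfl⟩
  obtain ⟨X₁, hX₁⟩ := exists_nat_ge (2 * (((K * K : ℕ)) : ℝ) / ε₀)
  obtain ⟨E', hE'⟩ : ∃ E' : ℝ, E' = 2 * Real.log 2 + ε / 2 := ⟨_, rfl⟩
  have hlog2 : 0 < Real.log 2 := Real.log_pos (by norm_num)
  have hE'0 : 0 < E' := by rw [hE']; positivity
  have hev : ∀ᶠ x : ℝ in atTop, (2 : ℝ) ^ E' ≤ Real.log x ^ (ε / 2) :=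
    ((tendsto_rpow_atTop (by positivity : 0 < ε / 2)).comp
      Real.tendsto_log_atTop).eventually_ge_atTop _
  obtain ⟨x₀, hx₀⟩ := eventually_atTop.1 hev
  refine null_of (max (max X₀ N₁) (max (max A 2) (max X₁ ⌈x₀⌉₊))) (fun X hX hlt => ?_)
    (sum_null hq (fun r _ ε' hε' => equS h hF hT ha hk hq u r 0 j 0 1 0 1 le_rfl one_pos le_rfl
      one_pos ε' hε') ε₀ hε₀p)
  have hXX₀ : X₀ ≤ X := (le_max_left _ _).trans ((le_max_left _ _).trans hX)
  have hXN₁ : N₁ ≤ X := (le_max_right _ _).trans ((le_max_left _ _).trans hX)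
  have hXA : A ≤ X :=
    (le_max_left _ _).trans ((le_max_left _ _).trans ((le_max_right _ _).trans hX))
  have hX2 : 2 ≤ X :=
    (le_max_right _ _).trans ((le_max_left _ _).trans ((le_max_right _ _).trans hX))
  have hXx : x₀ ≤ X := (Nat.le_ceil _).trans (by
    exact_mod_cast (le_max_right _ _).trans ((le_max_right _ _).trans ((le_max_right _ _).trans hX)))
  have hXX₁ : 2 * (((K * K : ℕ)) : ℝ) / ε₀ ≤ X := hX₁.trans (by
    exact_mod_cast (le_max_left _ _).trans ((le_max_right _ _).trans ((le_max_right _ _).trans hX)))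
  by_contra hcon
  push Not at hcon
  have h1 := hlow X hXX₀
  obtain ⟨S₀, hS₀⟩ : ∃ S : Finset (ℕ × ℕ), S = (PQ t A β e q u X).filter (fun p =>
      ArithmeticFunction.cardFactors p.1 ≡ 0 [MOD k] ∧
      ArithmeticFunction.cardFactors p.2 ≡ j [MOD k]) := ⟨_, rfl⟩
  have h20 : ε₀ * X ≤ (S₀.card : ℝ) := by
    have e1 := cardPQ (t := t) (A := A) (β := β) (e := e) q hq u X (fun p =>
      ArithmeticFunction.cardFactors p.1 ≡ 0 [MOD k] ∧
      ArithmeticFunction.cardFactors p.2 ≡ j [MOD k])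
    have e2 := cardPQ (t := t) (A := A) (β := β) (e := e) q hq u X (fun _ => True)
    simp only [and_true] at e2
    rw [Finset.filter_true] at e2
    have e3 : 1 / (k : ℝ) ^ 2 * ((PQ t A β e q u X).card : ℝ) ≤ (S₀.card : ℝ) +
        ∑ r ∈ range q, devS t A β e k q u r 0 j 0 1 0 1 X := by
      have e1' : (S₀.card : ℝ) = ∑ r ∈ range q,
          (((SV (A : ℤ) ((2 * β + t : ℕ) : ℤ) (e : ℤ) q u r 0 1 0 1 X).filter
          (fun p => Squarefree (p.1 * p.2) ∧ ArithmeticFunction.cardFactors p.1 ≡ 0 [MOD k] ∧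
          ArithmeticFunction.cardFactors p.2 ≡ j [MOD k])).card : ℝ) := by
        rw [hS₀]
        convert e1
      rw [e1', e2, mul_sum, ← sum_add_distrib]
      refine sum_le_sum fun r _ => ?_
      have h3 := neg_abs_le ((((SV (A : ℤ) ((2 * β + t : ℕ) : ℤ) (e : ℤ) q u r 0 1 0 1 X).filter
        (fun p => Squarefree (p.1 * p.2) ∧ ArithmeticFunction.cardFactors p.1 ≡ 0 [MOD k] ∧
        ArithmeticFunction.cardFactors p.2 ≡ j [MOD k])).card : ℝ) -
        1 / (k : ℝ) ^ 2 * (((SV (A : ℤ) ((2 * β + t : ℕ) : ℤ) (e : ℤ) q u r 0 1 0 1 X).filter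
          (fun p => Squarefree (p.1 * p.2))).card : ℝ))
      unfold devS
      linarith
    have h4 : 1 / (k : ℝ) ^ 2 * (c₁ * X) ≤ 1 / (k : ℝ) ^ 2 * ((PQ t A β e q u X).card : ℝ) :=
      mul_le_mul_of_nonneg_left h1 (by positivity)
    have h5 : 1 / (k : ℝ) ^ 2 * (c₁ * X) = 2 * (ε₀ * X) := by rw [hε₀]; field_simp
    linarith
  obtain ⟨S, hSd⟩ : ∃ S : Finset (ℕ × ℕ), S = S₀.filter (fun p => p.1 * p.2 ≠ K) := ⟨_, rfl⟩
  have h2 : ε₀ / 2 * X ≤ (S.card : ℝ) := by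
    have h3 : S₀ ⊆ S ∪ Icc 1 K ×ˢ Icc 1 K := by
      intro p hp
      by_cases hpK : p.1 * p.2 = K
      · refine mem_union_right _ ?_
        rw [hS₀] at hp
        unfold PQ at hp
        simp only [mem_filter, mem_product, mem_Icc] at hp
        obtain ⟨⟨⟨⟨h3, _⟩, h5, _⟩, _⟩, _⟩ := hp
        rw [mem_product, mem_Icc, mem_Icc]
        refine ⟨⟨h3, ?_⟩, h5, ?_⟩
        · rw [← hpK]; exact Nat.le_mul_of_pos_right _ h5
        · rw [← hpK]; exact Nat.le_mul_of_pos_left _ h3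
      · refine mem_union_left _ ?_
        rw [hSd]
        exact mem_filter.2 ⟨hp, hpK⟩
    have h4 : (S₀.card : ℝ) ≤ S.card + ((K * K : ℕ) : ℝ) := by
      have h5 := (card_le_card h3).trans (card_union_le _ _)
      rw [card_product, Nat.card_Icc, Nat.add_sub_cancel] at h5
      exact_mod_cast h5
    rw [div_le_iff₀ hε₀p] at hXX₁
    linarith
  have hSm : ∀ p ∈ S, 1 ≤ p.1 ∧ p.1 ≤ X ∧ 1 ≤ p.2 ∧ p.2 ≤ X ∧ Squarefree (p.1 * p.2) ∧
      ArithmeticFunction.cardFactors (p.1 * p.2) ≡ j [MOD k] ∧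
      ∃ m : ℕ, p.1 * p.2 = fq t A β e m ∧ m ≡ u [MOD q] ∧ 1 ≤ m := by
    intro p hp
    rw [hSd, hS₀] at hp
    unfold PQ at hp
    simp only [mem_filter, mem_product, mem_Icc] at hp
    obtain ⟨⟨⟨⟨⟨h3, h4⟩, h5, h6⟩, h7, m, h8, h8'⟩, h9, h10⟩, h11⟩ := hp
    refine ⟨h3, h4, h5, h6, h7, ?_, m, h8, h8', ?_⟩
    swap
    · rcases Nat.eq_zero_or_pos m with h0 | h0
      · exfalso
        apply h11
        rw [h8, h0, hK]
      · exact h0
    rw [ArithmeticFunction.cardFactors_mul (by omega) (by omega)]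
    have := h9.add h10
    rwa [zero_add] at this
  have hinj : Function.Injective (fun p : ℕ × ℕ => (A * p.1, p.2)) := by
    intro p p' hpp
    simp only [Prod.mk.injEq] at hpp
    exact Prod.ext (Nat.eq_of_mul_eq_mul_left (by omega) hpp.1) hpp.2
  obtain ⟨S', hS'⟩ : ∃ S' : Finset (ℕ × ℕ), S' = S.image (fun p : ℕ × ℕ => (A * p.1, p.2)) :=
    ⟨_, rfl⟩
  have hcS' : S'.card = S.card := by rw [hS']; exact card_image_of_injective _ hinj
  have hAX : ((A * X : ℕ) : ℝ) = A * X := by push_cast; ring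
  have h3 := hpn (A * X) (hXN₁.trans (Nat.le_mul_of_pos_left _ (by omega))) S' (fun P hP => by
    rw [hS'] at hP
    obtain ⟨p, hp, rfl⟩ := mem_image.1 hP
    obtain ⟨b1, b2, b3, b4, b5, _, m, b6, _, b9⟩ := hSm p hp
    have hid := ident h m
    have hprod : A * p.1 * p.2 = (A * m + β) ^ 2 + t * (A * m + β) + c := by
      rw [hid, ← b6, mul_assoc]
    refine ⟨?_, ?_⟩
    · unfold SP
      rw [mem_filter, mem_product, mem_Icc, mem_Icc]
      refine ⟨⟨⟨Nat.one_le_iff_ne_zero.2 (by positivity), Nat.mul_le_mul_left _ b2⟩, b3,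
        b4.trans (Nat.le_mul_of_pos_left _ (by omega))⟩, A * m + β, ?_⟩
      refine (fcond (A * m + β) (A * p.1) p.2).2 ⟨?_, hprod⟩
      have : 1 ≤ A * m := Nat.mul_pos (by omega) (by omega)
      omega
    · show Squarefree (A * p.1 * p.2)
      exact (sqf_iff h b6).1 b5) (by
      rw [hcS', hAX]
      calc ε₀ / 2 / A * (A * X) = ε₀ / 2 * X := by field_simp
        _ ≤ _ := h2)
  have h4 : (S'.image (fun P : ℕ × ℕ => Nat.sqrt (P.1 * P.2 - c))).card ≤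
      cS t A β e q u k j X := by
    unfold cS
    refine le_trans (card_le_card ?_) (card_image_le (f := fun m : ℕ => A * m + β))
    intro n hn
    obtain ⟨P, hP, rfl⟩ := mem_image.1 hn
    rw [hS'] at hP
    obtain ⟨p, hp, rfl⟩ := mem_image.1 hP
    obtain ⟨b1, b2, b3, b4, b5, b6, m, b7, b8, _⟩ := hSm p hp
    have hid := ident h m
    have hprod : A * p.1 * p.2 = (A * m + β) ^ 2 + t * (A * m + β) + c := by
      rw [hid, ← b7, mul_assoc]
    have h14 : Nat.sqrt (A * p.1 * p.2 - c) = A * m + β := by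
      rw [hprod]
      exact fsqrt ht _
    show Nat.sqrt (A * p.1 * p.2 - c) ∈ _
    rw [h14]
    refine mem_image_of_mem _ (mem_filter.2 ⟨?_, b8, b7 ▸ b5, b7 ▸ b6⟩)
    rw [mem_range]
    by_contra hcon2
    push Not at hcon2
    have h15 : p.1 * p.2 ≤ X * X := Nat.mul_le_mul b2 b4
    rw [b7] at h15
    unfold fq at h15
    have h16 : (X + 1) ^ 2 ≤ A * m ^ 2 := by
      calc (X + 1) ^ 2 ≤ m ^ 2 := Nat.pow_le_pow_left hcon2 2
        _ ≤ A * m ^ 2 := Nat.le_mul_of_pos_left _ (by omega)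
    nlinarith [Nat.zero_le ((2 * β + t) * m)]
  have h5 : ((S'.image (fun P : ℕ × ℕ => Nat.sqrt (P.1 * P.2 - c))).card : ℝ) ≤
      cS t A β e q u k j X := by
    exact_mod_cast h4
  -- comparison of the bounds
  have hXr : (2 : ℝ) ≤ X := by exact_mod_cast hX2
  have hXAr : (A : ℝ) ≤ X := by exact_mod_cast hXA
  have hlogX : 0 < Real.log X := Real.log_pos (by linarith)
  have hAX1 : (1 : ℝ) < A * X := by nlinarith
  have hlogAX : 0 < Real.log (A * X) := Real.log_pos hAX1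
  have h6 : Real.log (A * X) ≤ 2 * Real.log X := by
    have : (A : ℝ) * X ≤ X * X := by nlinarith
    calc Real.log (A * X) ≤ Real.log (X * X) := Real.log_le_log (by linarith) this
      _ = 2 * Real.log X := by rw [Real.log_mul (by linarith) (by linarith)]; ring
  have h7 : Real.log (A * X) ^ E' ≤ Real.log X ^ (2 * Real.log 2 + ε) := by
    calc Real.log (A * X) ^ E' ≤ (2 * Real.log X) ^ E' :=
          Real.rpow_le_rpow hlogAX.le h6 hE'0.le
      _ = (2 : ℝ) ^ E' * Real.log X ^ E' := Real.mul_rpow (by norm_num) hlogX.le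
      _ ≤ Real.log X ^ (ε / 2) * Real.log X ^ E' :=
          mul_le_mul_of_nonneg_right (hx₀ X hXx) (Real.rpow_nonneg hlogX.le _)
      _ = Real.log X ^ (2 * Real.log 2 + ε) := by
          rw [← Real.rpow_add hlogX, hE']
          congr 1
          ring
  rw [← hE', hAX] at h3
  have h8 : (X : ℝ) / Real.log X ^ (2 * Real.log 2 + ε) ≤ (A * X) / Real.log (A * X) ^ E' :=
    div_le_div₀ (by positivity) (by nlinarith) (Real.rpow_pos_of_pos hlogAX _) h7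
  linarith

end Pool.Agent.W78.EGQ
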